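import Pool.Agent.W997.NL.Law

/-!
# Assembly (project NL)
-/

set_option autoImplicit false

namespace Pool.Agent.W997.NL

open Finset
open Pool.Agent.W997.SR (Dag Net)
open Pool.Agent.W997.SR.Dag (value lives net value_eq' card_lives)
open Pool.Agent.W997.TS (DBP bit)
open Pool.Agent.W997.DB (ByCircuit ByProgram HardReads)

/-- The number of variables. -/
theorem card_var (i k : ℕ) : Fintype.card ((fam i).G.Var k) = Fintype.card (fam i).G.Γ * k := by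
  rw [Fintype.card_prod, Fintype.card_fin]

theorem nat_bounds (hcard : S_CARD) (i : ℕ) :
    2 ^ (6 + i) ≤ Fintype.card (fam i).G.Γ ∧
      Fintype.card (fam i).G.Γ ≤ 2 * (6 + i) ^ 2 * 2 ^ (6 + i) := by
  have h := hcard i
  have h1 : 34 ≤ (6 + i) ^ 2 + 2 * (6 + i) := by nlinarith
  have h2 : 34 * 2 ^ (6 + i) ≤ ((6 + i) ^ 2 + 2 * (6 + i)) * 2 ^ (6 + i) :=
    Nat.mul_le_mul_right _ h1
  have h3 : ((6 + i) ^ 2 + 2 * (6 + i)) * 2 ^ (6 + i) ≤ 2 * (6 + i) ^ 2 * 2 ^ (6 + i) := by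
    apply Nat.mul_le_mul_right
    nlinarith
  constructor
  · omega
  · omega

/-- **The law for the family.** -/
theorem fam_law (hlive : S_LIVE) (hcard : S_CARD) (hdeg : S_DEG)
    (hQ : ∀ i, Q (fam i) (2 ^ i)) (i : ℕ) (hi : 3 ≤ i)
    (k : ℕ) [NeZero k] (hk : Even k) (s γ : ℝ) (hs : 1 ≤ s) (hγ : 1 ≤ γ * s ^ 2 ^ (i - 3)) :
    HardReads (fun x : (fam i).G.Var k → Fin k => xbit (fam i) x) (2 ^ (i - 3) * Real.log s) γ
      (γ * (Fintype.card ((fam i).G.Var k) / (2 ^ 23 * (6 + i) ^ 4 * s ^ 2))) := by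
  have hu : 8 * 2 ^ (i - 3) = 2 ^ i := by
    obtain ⟨j, rfl⟩ : ∃ j, i = j + 3 := ⟨i - 3, by omega⟩
    rw [Nat.add_sub_cancel, pow_add]
    ring
  have hR : (2 : ℝ) ^ (6 + i) = 512 * 2 ^ (i - 3) := by
    obtain ⟨j, rfl⟩ : ∃ j, i = j + 3 := ⟨i - 3, by omega⟩
    rw [Nat.add_sub_cancel, show 6 + (j + 3) = j + 9 by ring, pow_add]
    ring
  have h := graph_law hlive (fam i) (2 ^ (i - 3)) Nat.one_le_two_pow
    (by rw [hu, card_idx, pow_add]; have : 0 < 2 ^ i := by positivity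
        omega)
    (by rw [hu]; exact hQ i) (deg_fam hdeg i) k hk s γ hs hγ
  intro P T M R hP hrun hag
  have hγ0 : 0 < γ := by
    by_contra hcon
    push Not at hcon
    have : 0 < s ^ 2 ^ (i - 3) := by positivity
    nlinarith
  refine le_trans ?_ (h P T M R (by push_cast; exact hP) hrun hag)
  apply mul_le_mul_of_nonneg_right _ (by positivity)
  apply mul_le_mul_of_nonneg_left _ hγ0.le
  obtain ⟨hn1, hn2⟩ := nat_bounds hcard i
  have hn1' : (2 : ℝ) ^ (6 + i) ≤ Fintype.card (fam i).G.Γ := by exact_mod_cast hn1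
  have hn2' : (Fintype.card (fam i).G.Γ : ℝ) ≤ 2 * (6 + i) ^ 2 * 2 ^ (6 + i) := by
    exact_mod_cast hn2
  have hn0 : (0 : ℝ) < Fintype.card (fam i).G.Γ := lt_of_lt_of_le (by positivity) hn1'
  rw [card_var]
  push_cast
  obtain ⟨n, hn⟩ : ∃ n : ℝ, n = Fintype.card (fam i).G.Γ := ⟨_, rfl⟩
  obtain ⟨w, hw⟩ : ∃ w : ℝ, w = 2 ^ (i - 3) := ⟨_, rfl⟩
  have hw0 : 0 < w := by rw [hw]; positivity
  rw [← hn] at hn1' hn2' hn0 ⊢
  rw [← hw] at hR ⊢
  rw [hR] at hn2'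
  have hk0 : (0 : ℝ) ≤ k := by positivity
  rw [div_le_div_iff₀ (by positivity) (by positivity)]
  have hR0 : (0 : ℝ) ≤ ((6 : ℝ) + i) ^ 2 := by positivity
  have key : n ^ 2 ≤ 2 ^ 20 * ((6 : ℝ) + i) ^ 4 * w ^ 2 := by
    calc n ^ 2 ≤ (2 * ((6 : ℝ) + i) ^ 2 * (512 * w)) ^ 2 := pow_le_pow_left₀ hn0.le hn2' 2
      _ = 2 ^ 20 * ((6 : ℝ) + i) ^ 4 * w ^ 2 := by ring
  have hs2 : 0 ≤ (k : ℝ) * s ^ 2 * 8 := by positivity
  calc n * k * (8 * n * s ^ 2) = n ^ 2 * (k * s ^ 2 * 8) := by ring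
    _ ≤ (2 ^ 20 * ((6 : ℝ) + i) ^ 4 * w ^ 2) * (k * s ^ 2 * 8) :=
        mul_le_mul_of_nonneg_right key hs2
    _ = k * w ^ 2 * (2 ^ 23 * (6 + i) ^ 4 * s ^ 2) := by ring

/-- **The asymptotic form.** -/
theorem asym (hlive : S_LIVE) (hcard : S_CARD) (hdeg : S_DEG) (hprog : S_PROG) (hcirc : S_CIRC)
    (hQ : ∀ i, Q (fam i) (2 ^ i)) (hnum : S_NUM) : ∀ A : ℕ, 1 ≤ A → ∃ i₀ : ℕ, ∀ i l : ℕ,
    i₀ ≤ i → (6 + i) ^ A ≤ 2 ^ l → 2 ^ l ≤ 2 * (6 + i) ^ A →
    ∀ N : ℝ, N = Fintype.card ((fam i).G.Var (2 ^ l)) →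
    ∀ f : ((fam i).G.Var (2 ^ l) → Fin (2 ^ l)) → Bool, f = (fun x => xbit (fam i) x) →
      (∃ T, ByCircuit f (N * Real.log N ^ (A + 1)) T) ∧
      ByProgram f (N / Real.log N ^ (A - 1)) (N / Real.log N ^ A) (N / Real.log N ^ A) ∧
      HardReads f (N / Real.log N ^ (A + 3)) (1 / Real.log N) (N / Real.log N ^ 6) := by
  intro A hA
  obtain ⟨i₀, h0⟩ := hnum A hA
  refine ⟨i₀, ?_⟩
  intro i l hi h1 h2 N hN f hf
  subst hf
  obtain ⟨n, hn⟩ : ∃ n : ℕ, n = Fintype.card (fam i).G.Γ := ⟨_, rfl⟩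
  have hNn : N = n * 2 ^ l := by
    rw [hN, card_var, hn]
    push_cast
    ring
  obtain ⟨g1, g2, g3, g4, g5, g6, g7⟩ := h0 i l n (6 + i) hi rfl h1 h2
    (by rw [hn]; exact hcard i) N hNn
  have hne : Nonempty (Idx i) := by
    rw [← Fintype.card_pos_iff, card_idx]
    positivity
  have hneG : Nonempty (fam i).G.Γ := ⟨(fam i).inp hne.some⟩
  have hn0 : 0 < n := by rw [hn]; exact Fintype.card_pos
  have hl1 : 1 ≤ l := by
    by_contra hcon
    have hl0 : l = 0 := by omega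
    subst hl0
    have h3 : (6 + i) ^ 1 ≤ (6 + i) ^ A := Nat.pow_le_pow_right (by omega) hA
    rw [pow_one] at h3
    rw [pow_zero] at h1
    omega
  refine ⟨?_, ?_, ?_⟩
  · obtain ⟨T, hT⟩ := hcirc (Idx i) (fam i) l hl1 (fun v => (deg_fam hdeg i v).1) hne
    obtain ⟨C, hC1, hC2, hC3⟩ := hT
    refine ⟨T, C, hC1.trans ?_, hC2, hC3⟩
    rw [← hn]
    exact g7
  · obtain ⟨P, hP1, hP2⟩ := hprog (fam i).G (2 ^ l)
      (fun z => decide ((univ.filter (fun j : Idx i => bit (z ((fam i).out j)) = true)).card % 2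
        = 1)) hneG
    refine ⟨P, ?_, ?_⟩
    · refine le_trans ?_ g2
      have hP0 : 0 < (P.size : ℝ) := by
        have : 0 < P.size := Fintype.card_pos_iff.2 ⟨P.start⟩
        exact_mod_cast this
      have h3 : (P.size : ℝ) ≤ n * (2 ^ l) ^ n := by
        rw [hn]
        exact_mod_cast hP1
      have hn0' : (0 : ℝ) < n := by exact_mod_cast hn0
      calc Real.log P.size ≤ Real.log (n * (2 ^ l) ^ n) := Real.log_le_log hP0 h3
        _ = n * l * Real.log 2 + Real.log n := by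
            rw [Real.log_mul (by positivity) (by positivity), Real.log_pow, Real.log_pow]
            ring
    · intro x
      refine ⟨n, n, g3, g3, ?_⟩
      have h4 := hP2 x
      rw [← hn] at h4
      exact h4
  · have h3 := fam_law hlive hcard hdeg hQ i g1 (2 ^ l)
      ((Nat.even_pow.2 ⟨even_two, by omega⟩)) 2 (1 / Real.log N) (by norm_num) (by
        push_cast at g5 ⊢
        exact g5)
    intro P T M R hP hrun hag
    have h4 := h3 P T M R (hP.trans g4) hrun hag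
    refine le_trans ?_ h4
    apply mul_le_mul_of_nonneg_right _ (by positivity)
    rw [← hN]
    refine g6.trans (le_of_eq ?_)
    push_cast
    ring

end Pool.Agent.W997.NL
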