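import Pool.Agent.W997.NL.Defs

/-!
# The graphs again, with short definitions
-/

set_option autoImplicit false

namespace Pool.Agent.W997.NL

open Finset
open Pool.Agent.W997.SR (Dag)

/-- The node `c` is a child of the node `v` of the superconcentrator: in the lower half
(`l ≤ r`) the children of the node in place `x` of level `l` are the places `x` and
`x + 2 ^ (l - 1)` of level `l - 1`, in the upper half the places `x` and `x - 2 ^ (2 r - l)`. -/
def Edge (r : ℕ) (v c : Fin (2 * r + 1) × Fin (2 ^ r)) : Prop :=
  c.1.val + 1 = v.1.val ∧ (c.2 = v.2 ∨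
    (v.1.val ≤ r ∧ c.2.val = v.2.val + 2 ^ (v.1.val - 1)) ∨
    (r < v.1.val ∧ c.2.val + 2 ^ (2 * r - v.1.val) = v.2.val))

open Classical in
/-- The children of a node. -/
noncomputable def edgeKid (r : ℕ) (v : Fin (2 * r + 1) × Fin (2 ^ r)) :
    Finset (Fin (2 * r + 1) × Fin (2 ^ r)) := univ.filter (Edge r v)

theorem edgeKid_eq (r : ℕ) : edgeKid r = shiftKid r := by
  classical
  funext v
  ext c
  unfold edgeKid shiftKid
  rw [mem_filter, mem_filter]
  exact Iff.rfl

theorem edgeKid_lt (r : ℕ) : ∀ v, ∀ c ∈ edgeKid r v, c.1.val < v.1.val := by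
  rw [edgeKid_eq]
  exact (shift r).G.kid_lt

/-- The levels of the superconcentrator. -/
def lev (r l : ℕ) (h : l < 2 * r + 1) (x : Fin (2 ^ r)) : Fin (2 * r + 1) × Fin (2 ^ r) :=
  (⟨l, h⟩, x)

theorem lev_inj (r l : ℕ) (h : l < 2 * r + 1) : Function.Injective (lev r l h) :=
  fun _ _ h => (Prod.ext_iff.1 h).2

theorem lev_kid (r : ℕ) (h : 0 < 2 * r + 1) (x : Fin (2 ^ r)) : edgeKid r (lev r 0 h x) = ∅ := by
  rw [edgeKid_eq]
  exact (shift r).inp_kid x

theorem lev_top (r : ℕ) (h : 2 * r < 2 * r + 1) (x : Fin (2 ^ r)) :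
    ∀ v, lev r (2 * r) h x ∉ edgeKid r v := by
  rw [edgeKid_eq]
  exact (shift r).out_top x

/-- The superconcentrator with `2 ^ r` inputs (level `0`) and outputs (level `2 r`). -/
noncomputable def superc (r : ℕ) : IOG (Fin (2 ^ r)) where
  G := { Γ := Fin (2 * r + 1) × Fin (2 ^ r), kid := edgeKid r, rk := fun v => v.1.val,
         kid_lt := edgeKid_lt r }
  inp := lev r 0 (Nat.succ_pos _)
  out := lev r (2 * r) (Nat.lt_succ_self _)
  inp_inj := lev_inj r 0 _
  out_inj := lev_inj r (2 * r) _
  inp_kid := lev_kid r _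
  out_top := lev_top r _

theorem superc_aux (r : ℕ)
    (K : Fin (2 * r + 1) × Fin (2 ^ r) → Finset (Fin (2 * r + 1) × Fin (2 ^ r)))
    (hK : K = shiftKid r) (h1 : ∀ v, ∀ c ∈ K v, c.1.val < v.1.val)
    (h2 : ∀ x, K (lev r 0 (Nat.succ_pos _) x) = ∅)
    (h3 : ∀ x v, lev r (2 * r) (Nat.lt_succ_self _) x ∉ K v) :
    ({ G := { Γ := Fin (2 * r + 1) × Fin (2 ^ r), kid := K, rk := fun v => v.1.val,
              kid_lt := h1 }
       inp := lev r 0 (Nat.succ_pos _), out := lev r (2 * r) (Nat.lt_succ_self _),
       inp_inj := lev_inj r 0 _, out_inj := lev_inj r (2 * r) _, inp_kid := h2,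
       out_top := h3 } : IOG (Fin (2 ^ r))) = shift r := by
  subst hK
  rfl

theorem superc_eq (r : ℕ) : superc r = shift r :=
  superc_aux r _ (edgeKid_eq r) _ _ _

theorem BCell.finite {I S : Type} [Finite I] [Finite S] : Finite (BCell I S) := by
  classical
  have := Fintype.ofFinite I
  have := Fintype.ofFinite S
  infer_instance

theorem Cell.finite {I S V : Type} [Finite I] [Finite S] [Finite V] :
    Finite (Cell I S V) := by
  classical
  have := Fintype.ofFinite I
  have := Fintype.ofFinite S
  have := Fintype.ofFinite V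
  infer_instance

theorem base_lt {I : Type} [Fintype I] [DecidableEq I] (S : IOG I) :
    ∀ v, ∀ c ∈ baseKid S v, baseRk S c < baseRk S v := (base S).G.kid_lt

theorem base_top {I : Type} [Fintype I] [DecidableEq I] (S : IOG I) :
    ∀ j v, BCell.out j ∉ baseKid S v := (base S).out_top

theorem base_inp {I : Type} [Fintype I] [DecidableEq I] (S : IOG I) :
    Function.Injective (BCell.inp : I → BCell I S.G.Γ) := (base S).inp_inj

theorem base_out {I : Type} [Fintype I] [DecidableEq I] (S : IOG I) :
    Function.Injective (BCell.out : I → BCell I S.G.Γ) := (base S).out_inj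

/-- The first graph. -/
noncomputable def base' {I : Type} [Fintype I] [DecidableEq I] (S : IOG I) : IOG I where
  G := { Γ := BCell I S.G.Γ, fin := @Fintype.ofFinite _ BCell.finite, kid := baseKid S,
         rk := baseRk S, kid_lt := base_lt S }
  inp := .inp
  out := .out
  inp_inj := base_inp S
  out_inj := base_out S
  inp_kid := fun _ => rfl
  out_top := base_top S

theorem base_aux {I : Type} [Fintype I] [DecidableEq I] (S : IOG I)
    (F : Fintype (BCell I S.G.Γ)) (hF : F = instFintypeBCell) :
    ({ G := { Γ := BCell I S.G.Γ, fin := F, kid := baseKid S, rk := baseRk S,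
              kid_lt := base_lt S }
       inp := .inp, out := .out, inp_inj := base_inp S, out_inj := base_out S,
       inp_kid := fun _ => rfl, out_top := base_top S } : IOG I) = base S := by
  subst hF
  rfl

theorem base_eq {I : Type} [Fintype I] [DecidableEq I] (S : IOG I) : base' S = base S :=
  base_aux S _ (Subsingleton.elim _ _)

theorem comp_lt {I : Type} [Fintype I] [DecidableEq I] (S G : IOG I) :
    ∀ v, ∀ c ∈ compKid S G v, compRk S G c < compRk S G v := (comp S G).G.kid_lt

theorem comp_top {I : Type} [Fintype I] [DecidableEq I] (S G : IOG I) :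
    ∀ j v, Cell.out j ∉ compKid S G v := (comp S G).out_top

theorem comp_inp {I : Type} [Fintype I] [DecidableEq I] (S G : IOG I) :
    Function.Injective (Cell.inp : Bool × I → Cell I S.G.Γ G.G.Γ) := (comp S G).inp_inj

theorem comp_out {I : Type} [Fintype I] [DecidableEq I] (S G : IOG I) :
    Function.Injective (Cell.out : Bool × I → Cell I S.G.Γ G.G.Γ) := (comp S G).out_inj

/-- The composite graph. -/
noncomputable def comp' {I : Type} [Fintype I] [DecidableEq I] (S G : IOG I) :
    IOG (Bool × I) where
  G := { Γ := Cell I S.G.Γ G.G.Γ, fin := @Fintype.ofFinite _ Cell.finite, kid := compKid S G,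
         rk := compRk S G, kid_lt := comp_lt S G }
  inp := .inp
  out := .out
  inp_inj := comp_inp S G
  out_inj := comp_out S G
  inp_kid := fun _ => rfl
  out_top := comp_top S G

theorem comp_aux {I : Type} [Fintype I] [DecidableEq I] (S G : IOG I)
    (F : Fintype (Cell I S.G.Γ G.G.Γ))
    (hF : F = instFintypeCell) :
    ({ G := { Γ := Cell I S.G.Γ G.G.Γ, fin := F, kid := compKid S G, rk := compRk S G,
              kid_lt := comp_lt S G }
       inp := .inp, out := .out, inp_inj := comp_inp S G, out_inj := comp_out S G,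
       inp_kid := fun _ => rfl, out_top := comp_top S G } : IOG (Bool × I)) = comp S G := by
  subst hF
  rfl

theorem comp_eq {I : Type} [Fintype I] [DecidableEq I] (S G : IOG I) :
    comp' S G = comp S G := comp_aux S G _ (Subsingleton.elim _ _)

/-- The recursive graph with `2 ^ (6 + i)` inputs and outputs. -/
noncomputable def graph : ∀ i : ℕ, IOG (Idx i)
  | 0 => base' (superc 6)
  | i + 1 => comp' ((superc (6 + i)).reindex (num i)) (graph i)

theorem graph_eq : ∀ i : ℕ, graph i = fam i
  | 0 => (base_eq (superc 6)).trans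
      (congrArg (fun S : IOG (Fin (2 ^ 6)) => base S) (superc_eq 6))
  | i + 1 => by
    have h : graph (i + 1) = comp' ((superc (6 + i)).reindex (num i)) (graph i) := rfl
    rw [h, comp_eq, superc_eq, graph_eq i]
    rfl

end Pool.Agent.W997.NL
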