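import Pool.Agent.W997.SR.Dag

/-!
# Graphs of degree two whose outputs need many pebbles (after Paul, Tarjan and Celoni)

`shift r` is a superconcentrator with `2 ^ r` inputs and outputs and `(2 r + 1) 2 ^ r` nodes.
`fam i` is the recursive graph with `2 ^ (6 + i)` inputs and outputs.
-/

set_option autoImplicit false

namespace Pool.Agent.W997.NL

open Finset
open Pool.Agent.W997.SR (Dag)

/-- A directed acyclic graph with inputs and outputs. -/
structure IOG (I : Type) where
  /-- the graph -/
  G : Dag
  /-- the inputs -/
  inp : I → G.Γ
  /-- the outputs -/
  out : I → G.Γ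
  inp_inj : Function.Injective inp
  out_inj : Function.Injective out
  inp_kid : ∀ j, G.kid (inp j) = ∅
  out_top : ∀ j v, out j ∉ G.kid v

/-- The same graph with other names for the inputs and outputs. -/
def IOG.reindex {I J : Type} (e : I ≃ J) (S : IOG J) : IOG I where
  G := S.G
  inp := fun j => S.inp (e j)
  out := fun j => S.out (e j)
  inp_inj := S.inp_inj.comp e.injective
  out_inj := S.out_inj.comp e.injective
  inp_kid := fun j => S.inp_kid (e j)
  out_top := fun j => S.out_top (e j)

/-! ### The superconcentrator -/

/-- The children of the node in place `x` of level `l`: in the lower half (`l ≤ r`) the places `x`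
and `x + 2 ^ (l - 1)` of level `l - 1`, in the upper half the places `x` and `x - 2 ^ (2 r - l)`. -/
def shiftKid (r : ℕ) (v : Fin (2 * r + 1) × Fin (2 ^ r)) :
    Finset (Fin (2 * r + 1) × Fin (2 ^ r)) :=
  univ.filter (fun c => c.1.val + 1 = v.1.val ∧ (c.2 = v.2 ∨
    (v.1.val ≤ r ∧ c.2.val = v.2.val + 2 ^ (v.1.val - 1)) ∨
    (r < v.1.val ∧ c.2.val + 2 ^ (2 * r - v.1.val) = v.2.val)))

/-- The superconcentrator with `2 ^ r` inputs and outputs and `2 r + 1` levels. -/
def shift (r : ℕ) : IOG (Fin (2 ^ r)) where
  G :=
    { Γ := Fin (2 * r + 1) × Fin (2 ^ r)
      kid := shiftKid r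
      rk := fun v => v.1.val
      kid_lt := by
        intro v c hc
        have h := (mem_filter.1 hc).2.1
        omega }
  inp := fun x => (⟨0, by omega⟩, x)
  out := fun x => (⟨2 * r, by omega⟩, x)
  inp_inj := fun _ _ h => (Prod.ext_iff.1 h).2
  out_inj := fun _ _ h => (Prod.ext_iff.1 h).2
  inp_kid := by
    intro j
    rw [eq_empty_iff_forall_notMem]
    intro c hc
    have h := (mem_filter.1 hc).2.1
    simp at h
  out_top := by
    intro j v hv
    have h := (mem_filter.1 hv).2.1
    have h2 := v.1.isLt
    simp only at h
    omega

/-! ### The first graph -/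

/-- The nodes of the first graph: inputs, superconcentrator, outputs. -/
inductive BCell (I S : Type)
  | inp (p : I)
  | mid (x : S)
  | out (p : I)
  deriving DecidableEq, Fintype

/-- The children in the first graph: the inputs are joined to the inputs of the superconcentrator,
and every output has as children the corresponding output of the superconcentrator and the
corresponding input. -/
def baseKid {I : Type} [Fintype I] [DecidableEq I] (S : IOG I) :
    BCell I S.G.Γ → Finset (BCell I S.G.Γ)
  | .inp _ => ∅
  | .mid x => (S.G.kid x).image .mid ∪
      (univ.filter (fun p : I => S.inp p = x)).image .inp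
  | .out p => {.mid (S.out p), .inp p}

/-- A rank function. -/
def baseRk {I : Type} (S : IOG I) : BCell I S.G.Γ → ℕ
  | .inp _ => 0
  | .mid x => 1 + S.G.rk x
  | .out _ => 2 + univ.sup S.G.rk

/-- The first graph. -/
def base {I : Type} [Fintype I] [DecidableEq I] (S : IOG I) : IOG I where
  G :=
    { Γ := BCell I S.G.Γ
      kid := baseKid S
      rk := baseRk S
      kid_lt := by
        intro v c hc
        cases v with
        | inp p => simp [baseKid] at hc
        | mid x =>
          simp only [baseKid, mem_union, mem_image, mem_filter, mem_univ, true_and] at hc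
          rcases hc with ⟨y, hy, rfl⟩ | ⟨p, hp, rfl⟩
          · have := S.G.kid_lt x y hy
            simp only [baseRk]
            omega
          · simp only [baseRk]
            omega
        | out p =>
          simp only [baseKid, mem_insert, mem_singleton] at hc
          rcases hc with rfl | rfl
          · have h : S.G.rk (S.out p) ≤ univ.sup S.G.rk := le_sup (mem_univ _)
            simp only [baseRk]
            omega
          · simp only [baseRk]
            omega }
  inp := .inp
  out := .out
  inp_inj := fun _ _ h => BCell.inp.inj h
  out_inj := fun _ _ h => BCell.out.inj h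
  inp_kid := fun _ => rfl
  out_top := by
    intro j v hv
    cases v with
    | inp p => simp [baseKid] at hv
    | mid x => simp [baseKid] at hv
    | out p => simp [baseKid] at hv

/-! ### The composite graph -/

/-- The nodes of the composite graph. -/
inductive Cell (I S V : Type)
  | inp (p : Bool × I)
  | s1 (x : S)
  | g1 (v : V)
  | g2 (v : V)
  | s2 (x : S)
  | out (p : Bool × I)
  deriving DecidableEq, Fintype

/-- The children in the composite graph: twice as many inputs, a copy of `S`, two copies of `G`,
another copy of `S`, and twice as many outputs, joined in series; every output has moreover the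
corresponding input as a child. -/
def compKid {I : Type} [Fintype I] [DecidableEq I] (S G : IOG I) :
    Cell I S.G.Γ G.G.Γ → Finset (Cell I S.G.Γ G.G.Γ)
  | .inp _ => ∅
  | .s1 x => (S.G.kid x).image .s1 ∪
      (univ.filter (fun p : Bool × I => S.inp p.2 = x)).image .inp
  | .g1 v => (G.G.kid v).image .g1 ∪
      (univ.filter (fun j : I => G.inp j = v)).image (fun j => .s1 (S.out j))
  | .g2 v => (G.G.kid v).image .g2 ∪
      (univ.filter (fun j : I => G.inp j = v)).image (fun j => .g1 (G.out j))
  | .s2 x => (S.G.kid x).image .s2 ∪
      (univ.filter (fun j : I => S.inp j = x)).image (fun j => .g2 (G.out j))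
  | .out p => {.s2 (S.out p.2), .inp p}

/-- A rank function. -/
def compRk {I : Type} (S G : IOG I) : Cell I S.G.Γ G.G.Γ → ℕ
  | .inp _ => 0
  | .s1 x => 1 + S.G.rk x
  | .g1 v => 2 + univ.sup S.G.rk + G.G.rk v
  | .g2 v => 3 + univ.sup S.G.rk + univ.sup G.G.rk + G.G.rk v
  | .s2 x => 4 + univ.sup S.G.rk + 2 * univ.sup G.G.rk + S.G.rk x
  | .out _ => 5 + 2 * univ.sup S.G.rk + 2 * univ.sup G.G.rk

/-- The composite graph. -/
def comp {I : Type} [Fintype I] [DecidableEq I] (S G : IOG I) : IOG (Bool × I) where
  G :=
    { Γ := Cell I S.G.Γ G.G.Γ
      kid := compKid S G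
      rk := compRk S G
      kid_lt := by
        intro v c hc
        have hS : ∀ x, S.G.rk x ≤ univ.sup S.G.rk := fun x => le_sup (mem_univ _)
        have hG : ∀ x, G.G.rk x ≤ univ.sup G.G.rk := fun x => le_sup (mem_univ _)
        cases v with
        | inp p => simp [compKid] at hc
        | s1 x =>
          simp only [compKid, mem_union, mem_image, mem_filter, mem_univ, true_and] at hc
          rcases hc with ⟨y, hy, rfl⟩ | ⟨p, hp, rfl⟩
          · have := S.G.kid_lt x y hy
            simp only [compRk]
            omega
          · simp only [compRk]
            omega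
        | g1 v =>
          simp only [compKid, mem_union, mem_image, mem_filter, mem_univ, true_and] at hc
          rcases hc with ⟨y, hy, rfl⟩ | ⟨p, hp, rfl⟩
          · have := G.G.kid_lt v y hy
            simp only [compRk]
            omega
          · have := hS (S.out p)
            simp only [compRk]
            omega
        | g2 v =>
          simp only [compKid, mem_union, mem_image, mem_filter, mem_univ, true_and] at hc
          rcases hc with ⟨y, hy, rfl⟩ | ⟨p, hp, rfl⟩
          · have := G.G.kid_lt v y hy
            simp only [compRk]
            omega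
          · have := hG (G.out p)
            simp only [compRk]
            omega
        | s2 x =>
          simp only [compKid, mem_union, mem_image, mem_filter, mem_univ, true_and] at hc
          rcases hc with ⟨y, hy, rfl⟩ | ⟨p, hp, rfl⟩
          · have := S.G.kid_lt x y hy
            simp only [compRk]
            omega
          · have := hG (G.out p)
            simp only [compRk]
            omega
        | out p =>
          simp only [compKid, mem_insert, mem_singleton] at hc
          rcases hc with rfl | rfl
          · have := hS (S.out p.2)
            simp only [compRk]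
            omega
          · simp only [compRk]
            omega }
  inp := .inp
  out := .out
  inp_inj := fun _ _ h => Cell.inp.inj h
  out_inj := fun _ _ h => Cell.out.inj h
  inp_kid := fun _ => rfl
  out_top := by
    intro j v hv
    cases v with
    | inp p => simp [compKid] at hv
    | s1 x => simp [compKid] at hv
    | g1 x => simp [compKid] at hv
    | g2 x => simp [compKid] at hv
    | s2 x => simp [compKid] at hv
    | out p => simp [compKid] at hv

/-! ### The family -/

/-- The names of the inputs and outputs. -/
def Idx : ℕ → Type
  | 0 => Fin (2 ^ 6)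
  | i + 1 => Bool × Idx i

instance Idx.fintype : ∀ i, Fintype (Idx i)
  | 0 => inferInstanceAs (Fintype (Fin (2 ^ 6)))
  | i + 1 => letI := Idx.fintype i; inferInstanceAs (Fintype (Bool × Idx i))

instance Idx.dec : ∀ i, DecidableEq (Idx i)
  | 0 => inferInstanceAs (DecidableEq (Fin (2 ^ 6)))
  | i + 1 => letI := Idx.dec i; inferInstanceAs (DecidableEq (Bool × Idx i))

theorem card_idx : ∀ i, Fintype.card (Idx i) = 2 ^ (6 + i)
  | 0 => Fintype.card_fin _
  | i + 1 => by
    have h : Fintype.card (Idx (i + 1)) = Fintype.card (Bool × Idx i) := rfl
    rw [h, Fintype.card_prod, Fintype.card_bool, card_idx i]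
    ring

/-- The inputs are numbered. -/
noncomputable def num (i : ℕ) : Idx i ≃ Fin (2 ^ (6 + i)) :=
  Fintype.equivFinOfCardEq (card_idx i)

/-- The recursive graph with `2 ^ (6 + i)` inputs and outputs. -/
noncomputable def fam : ∀ i : ℕ, IOG (Idx i)
  | 0 => base (shift 6)
  | i + 1 => comp ((shift (6 + i)).reindex (num i)) (fam i)

end Pool.Agent.W997.NL
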