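import Pool.Agent.W997.NL.Stm
import Pool.Agent.W997.SR.Peb
import Pool.Agent.W997.DB.Stmt

/-!
# Statements on programs and circuits (project NL)
-/

set_option autoImplicit false

namespace Pool.Agent.W997.NL

open Finset
open Pool.Agent.W997.SR (Dag Net)
open Pool.Agent.W997.SR.Dag (value lives net)
open Pool.Agent.W997.TS (DBP bit)
open Pool.Agent.W997.DB (ByCircuit ByProgram HardReads)

/-- The number of outputs with an even value is odd. -/
def xbit {I : Type} [Fintype I] (G : IOG I) {k : ℕ} [NeZero k] (x : G.G.Var k → Fin k) : Bool :=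
  decide ((univ.filter (fun j : I => bit (value x (G.out j)) = true)).card % 2 = 1)

/-- From computations to pebblings. -/
def S_LIVE : Prop := ∀ (I : Type) [Fintype I] (G : IOG I) (u : ℕ), 1 ≤ u →
  17 * u ≤ Fintype.card I → Q G u → ∀ (k : ℕ) [NeZero k] (P : DBP (G.G.Var k) k)
  (z : G.G.Γ → Fin k) (l : List P.State),
  (∀ j, ∃ q ∈ l, P.query q = (G.G.net k).pos z (G.out j)) →
  ∃ l', l' <:+ l ∧ u ≤ (lives P z l').card + 1

/-- The program which evaluates all nodes. -/
def S_PROG : Prop := ∀ (G : Dag) (k : ℕ) [NeZero k] (F : (G.Γ → Fin k) → Bool),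
  Nonempty G.Γ → ∃ P : DBP (G.Var k) k, P.size ≤ Fintype.card G.Γ * k ^ Fintype.card G.Γ ∧
    ∀ x, P.Run x (Fintype.card G.Γ) (Fintype.card G.Γ) (F (value x))

/-- Circuits. -/
def S_CIRC : Prop := ∀ (I : Type) [Fintype I] (G : IOG I) (l : ℕ), 1 ≤ l →
  (∀ v, (G.G.kid v).card ≤ 2) → Nonempty I →
  ∃ T : ℝ, ByCircuit (fun x : G.G.Var (2 ^ l) → Fin (2 ^ l) => xbit G x)
    (40 * l ^ 2 * Fintype.card G.G.Γ * 4 ^ l) T

end Pool.Agent.W997.NL
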