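import Pool.Agent.W997.NL.Rand
import Pool.Agent.W997.NL.Stm2

/-!
# The law for graphs with the property `Q`
-/

set_option autoImplicit false

namespace Pool.Agent.W997.NL

open Finset
open Pool.Agent.W997.SR (Dag Net)
open Pool.Agent.W997.SR.Dag (value lives net value_eq' card_lives)
open Pool.Agent.W997.TS (DBP bit)
open Pool.Agent.W997.DB (ByCircuit ByProgram HardReads)

theorem live_nil_card {G : Dag} {k : ℕ} [NeZero k] (P : DBP (G.Var k) k) (z : G.Γ → Fin k) :
    (lives P z ([] : List P.State)).card = 0 := by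
  classical
  rw [card_eq_zero, eq_empty_iff_forall_notMem]
  intro c hc
  rw [Pool.Agent.W997.SR.Dag.mem_lives] at hc
  exact hc

/-- **The law.** -/
theorem graph_law (hlive : S_LIVE) {I : Type} [Fintype I] (G : IOG I) (m : ℕ) (hm : 1 ≤ m)
    (hI : 17 * (8 * m) ≤ Fintype.card I) (hQ : Q G (8 * m)) (hdeg : G.G.DegLe 2)
    (k : ℕ) [NeZero k] (hk : Even k) (s γ : ℝ) (hs : 1 ≤ s) (hγ : 1 ≤ γ * s ^ m) :
    HardReads (fun x : G.G.Var k → Fin k => xbit G x) (m * Real.log s) γ
      (γ * (k * m ^ 2 / (8 * Fintype.card G.G.Γ * s ^ 2))) := by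
  classical
  intro P T M R hP hrun hag
  have hs0 : 0 < s := by linarith
  have hk1 : 1 ≤ k := NeZero.one_le
  have hk0 : (0 : ℝ) < (k : ℝ) := by exact_mod_cast hk1
  have hm0 : (0 : ℝ) < (m : ℝ) := by exact_mod_cast hm
  have hn1 : 0 < Fintype.card G.G.Γ := by
    have h1 : Fintype.card I ≤ Fintype.card G.G.Γ := Fintype.card_le_of_injective _ G.out_inj
    omega
  have hn0 : (0 : ℝ) < Fintype.card G.G.Γ := by exact_mod_cast hn1
  have hsm : 0 < s ^ m := by positivity
  have hγ0 : 0 < γ := by
    by_contra hcon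
    push Not at hcon
    nlinarith
  have hP0 : 0 < (P.size : ℝ) := by
    have : 0 < P.size := Fintype.card_pos_iff.2 ⟨P.start⟩
    exact_mod_cast this
  have hPs : (P.size : ℝ) ≤ s ^ m := by
    rw [← Real.log_le_log_iff hP0 (by positivity), Real.log_pow]
    exact hP
  obtain ⟨X, hX⟩ : ∃ X : ℝ, X = k * m ^ 2 / (8 * Fintype.card G.G.Γ * s ^ 2) := ⟨_, rfl⟩
  have hX0 : 0 ≤ X := by rw [hX]; positivity
  obtain ⟨t, ht⟩ : ∃ t : ℕ, t = ⌊X⌋₊ := ⟨_, rfl⟩
  have ht1 : (t : ℝ) ≤ X := by rw [ht]; exact Nat.floor_le hX0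
  have ht2 : X < t + 1 := by rw [ht]; exact Nat.lt_floor_add_one _
  have hρ : 8 * Fintype.card G.G.Γ * t / ((m : ℝ) ^ 2 * k) ≤ 1 / s ^ 2 := by
    rw [div_le_div_iff₀ (by positivity) (by positivity)]
    have h1 : (t : ℝ) * (8 * Fintype.card G.G.Γ * s ^ 2) ≤ k * m ^ 2 := by
      rw [← le_div_iff₀ (by positivity), ← hX]
      exact ht1
    nlinarith
  have hfail : P.size * (8 * Fintype.card G.G.Γ * t / ((m : ℝ) ^ 2 * k)) ^ m ≤ γ := by
    calc (P.size : ℝ) * (8 * Fintype.card G.G.Γ * t / ((m : ℝ) ^ 2 * k)) ^ m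
        ≤ s ^ m * (1 / s ^ 2) ^ m :=
          mul_le_mul hPs (pow_le_pow_left₀ (by positivity) hρ m) (by positivity) (by positivity)
      _ = 1 / s ^ m := by
          have h7 : s * (1 / s ^ 2) = 1 / s := by field_simp
          rw [← mul_pow, h7, one_div_pow]
      _ ≤ γ := by
          rw [div_le_iff₀ hsm]
          exact hγ
  have h := (G.G.net k).law_xor_avg G.out G.out_inj G.out_top m t γ hk hk1 hm P value
    (fun x v => value_eq' x v) (fun x => xbit G x) (fun x => rfl) ?_ T M R hrun hfail hag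
  · refine le_trans ?_ h
    rw [← hX]
    apply mul_le_mul_of_nonneg_right _ (by positivity)
    exact mul_le_mul_of_nonneg_left ht2.le hγ0.le
  · intro z l hl
    obtain ⟨l', hl', hc⟩ := hlive I G (8 * m) (by omega) hI hQ k P z l hl
    cases l' with
    | nil =>
      rw [live_nil_card] at hc
      omega
    | cons q l' =>
      refine ⟨q, l', hl', ?_⟩
      by_contra hno
      have h1 := card_lives P z (q :: l') m 2 hdeg hno (by norm_num)
      omega

/-! ### The family -/

theorem placed_reindex {I J Γ : Type} [Fintype I] [Fintype J] (e : I ≃ J) (C : ℕ → Finset Γ)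
    (a b : ℕ) (f : J → Γ) : placed C a b (fun i => f (e i)) = placed C a b f := by
  classical
  unfold placed
  refine card_bij (fun i _ => e i) ?_ ?_ ?_
  · intro i hi
    rw [mem_filter] at hi ⊢
    exact ⟨mem_univ _, hi.2⟩
  · intro i _ i' _ h
    exact e.injective h
  · intro j hj
    refine ⟨e.symm j, ?_, e.apply_symm_apply j⟩
    rw [mem_filter] at hj ⊢
    refine ⟨mem_univ _, ?_⟩
    simp only [e.apply_symm_apply]
    exact hj.2

theorem sc_reindex {I J : Type} [Fintype I] [Fintype J] (e : I ≃ J) (S : IOG J) (h : SCProp S) :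
    SCProp (S.reindex e) := by
  intro C hC a b hlt
  have h1 : placed C a b (S.reindex e).out = placed C a b S.out := placed_reindex e C a b S.out
  have h2 : placed C a b (S.reindex e).inp = placed C a b S.inp := placed_reindex e C a b S.inp
  rw [h1] at hlt
  have h3 := h C hC a b hlt
  rw [Fintype.card_congr e]
  refine h3.trans (le_of_eq ?_)
  exact congrArg (· + (C a).card) h2.symm

theorem direct_base {I : Type} [Fintype I] [DecidableEq I] (S : IOG I) : Direct (base S) := by
  intro j
  change BCell.inp j ∈ baseKid S (.out j)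
  simp [baseKid]

theorem direct_comp {I : Type} [Fintype I] [DecidableEq I] (S G : IOG I) :
    Direct (comp S G) := by
  intro j
  change Cell.inp j ∈ compKid S G (.out j)
  simp [compKid]

theorem fam_succ (i : ℕ) :
    fam (i + 1) = comp ((shift (6 + i)).reindex (num i)) (fam i) := rfl

theorem direct_fam (i : ℕ) : Direct (fam i) := by
  cases i with
  | zero => exact direct_base (shift 6)
  | succ i => exact direct_comp _ _

theorem deg_fam (hdeg : S_DEG) (i : ℕ) : (fam i).G.DegLe 2 := by
  induction i with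
  | zero => exact hdeg.2.1 _ (shift 6) (hdeg.1 6)
  | succ i ih => exact hdeg.2.2 _ ((shift (6 + i)).reindex (num i)) (fam i) (hdeg.1 (6 + i)) ih

theorem q_fam (hshift : S_SHIFT) (hbase : S_BASE) (hchain : S_CHAIN) (hcomp : S_COMP) (i : ℕ) :
    Q (fam i) (2 ^ i) := by
  induction i with
  | zero => exact hbase _ (shift 6) (hshift 6) (card_idx 0)
  | succ i ih =>
    have h1 := hcomp hchain (Idx i) ((shift (6 + i)).reindex (num i)) (fam i) (2 ^ i)
      (sc_reindex (num i) _ (hshift (6 + i))) (direct_fam i) ih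
      (by rw [card_idx, pow_add]; norm_num) Nat.one_le_two_pow
    have h2 : 2 ^ (i + 1) = 2 * 2 ^ i := by ring
    rw [h2]
    exact h1

end Pool.Agent.W997.NL
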