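import Pool.Agent.W997.SR.Core

/-!
# Sharper union bound, and the law for the parity of many values
-/

set_option autoImplicit false

namespace Pool.Agent.W997.SR

open Finset
open Pool.Agent.W997.TS (DBP flip flip_flip flip_val bit path_unique path_congr)
open Pool.Agent.W997.DB (bit_flip half)

/-- Binomial coefficients. -/
theorem choose_le_exp (n m : ℕ) (hm : 1 ≤ m) :
    (n.choose m : ℝ) ≤ (Real.exp 1 * n / m) ^ m := by
  have h1 := Nat.choose_le_pow_div (α := ℝ) m n
  have h2 := Real.pow_div_factorial_le_exp (x := (m : ℝ)) (by positivity) m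
  have hm0 : (0 : ℝ) < m := by exact_mod_cast hm
  have hf0 : (0 : ℝ) < (m.factorial : ℝ) := by exact_mod_cast m.factorial_pos
  refine h1.trans ?_
  have h3 : Real.exp (m : ℝ) = Real.exp 1 ^ m := by
    rw [← Real.exp_nat_mul, mul_one]
  rw [h3] at h2
  rw [div_pow, mul_pow, div_le_div_iff₀ hf0 (by positivity)]
  rw [div_le_iff₀ hf0] at h2
  have h4 : (0 : ℝ) ≤ (n : ℝ) ^ m := by positivity
  calc (n : ℝ) ^ m * (m : ℝ) ^ m ≤ (n : ℝ) ^ m * (Real.exp 1 ^ m * m.factorial) :=
        mul_le_mul_of_nonneg_left h2 h4
    _ = Real.exp 1 ^ m * (n : ℝ) ^ m * m.factorial := by ring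

theorem exp_sq_le : Real.exp 1 * Real.exp 1 ≤ 8 := by
  have h1 := Real.exp_one_lt_d9
  have h2 := Real.exp_pos 1
  nlinarith

variable {V Γ : Type} {k : ℕ} [Fintype Γ] [DecidableEq Γ] [DecidableEq V] (Y : Net V Γ k)

namespace Net

variable (P : DBP V k)

/-- **The union bound with binomial coefficients.** -/
theorem union_bound2 (g : V → Fin k) (t : ℕ) (q : P.State) (m : ℕ) (hk : 1 ≤ k) (hm : 1 ≤ m)
    (A : Finset (Γ → Fin k))
    (hA : ∀ z ∈ A, ∃ (l : List P.State) (r : Bool), P.IsPath (Y.inp g z) q l r ∧
      (asked P (q :: l)).card ≤ t ∧ Y.Crowded P z m (q :: l)) :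
    (A.card : ℝ) ≤ (8 * Fintype.card Γ * t / ((m : ℝ) ^ 2 * k)) ^ m *
      (k : ℝ) ^ Fintype.card Γ := by
  classical
  have hk0 : (0 : ℝ) < k := by exact_mod_cast hk
  have hm0 : (0 : ℝ) < m := by exact_mod_cast hm
  set F : Finset (Finset Γ) := univ.filter (fun U => U.card = m ∧ Y.Indep U) with hF
  set B : Finset Γ → Finset (Γ → Fin k) := fun U =>
    A.filter (fun z => ∃ (l : List P.State) (r : Bool), P.IsPath (Y.inp g z) q l r ∧
      (∀ c ∈ U, Y.Live P z c (q :: l)) ∧ (asked P (q :: l)).card ≤ t) with hB
  have hcov : A ⊆ F.biUnion B := by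
    intro z hz
    obtain ⟨l, r, hp, hb, U, hU, hU2, hU3⟩ := hA z hz
    rw [mem_biUnion]
    exact ⟨U, mem_filter.2 ⟨mem_univ _, hU, hU2⟩, mem_filter.2 ⟨hz, l, r, hp, hU3, hb⟩⟩
  have hFcard : (F.card : ℝ) ≤ (Real.exp 1 * Fintype.card Γ / m) ^ m := by
    have h1 : F ⊆ powersetCard m univ := by
      intro U hU
      rw [mem_powersetCard]
      exact ⟨subset_univ _, (mem_filter.1 hU).2.1⟩
    have h2 := card_le_card h1
    rw [card_powersetCard, card_univ] at h2
    refine le_trans ?_ (choose_le_exp _ _ hm)
    exact_mod_cast h2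
  have hBcard : ∀ U ∈ F, ((B U).card : ℝ) ≤ (Real.exp 1 * t / m / k) ^ m *
      (k : ℝ) ^ Fintype.card Γ := by
    intro U hU
    obtain ⟨-, hU1, hU2⟩ := mem_filter.1 hU
    have h1 := Y.fiber P g t q U hU2 (B U) (fun z hz => (mem_filter.1 hz).2)
    rw [hU1] at h1
    have h3 : ((B U).card : ℝ) * (k : ℝ) ^ m ≤ (t.choose m : ℝ) * (k : ℝ) ^ Fintype.card Γ := by
      exact_mod_cast h1
    have h4 : (t.choose m : ℝ) * (k : ℝ) ^ Fintype.card Γ ≤
        (Real.exp 1 * t / m) ^ m * (k : ℝ) ^ Fintype.card Γ :=
      mul_le_mul_of_nonneg_right (choose_le_exp _ _ hm) (by positivity)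
    rw [div_pow _ (k : ℝ), div_mul_eq_mul_div, le_div_iff₀ (by positivity)]
    exact h3.trans h4
  calc (A.card : ℝ) ≤ ((F.biUnion B).card : ℝ) := by exact_mod_cast card_le_card hcov
    _ ≤ ((∑ U ∈ F, (B U).card : ℕ) : ℝ) := by exact_mod_cast card_biUnion_le
    _ = ∑ U ∈ F, ((B U).card : ℝ) := by push_cast; rfl
    _ ≤ ∑ U ∈ F, ((Real.exp 1 * t / m / k) ^ m * (k : ℝ) ^ Fintype.card Γ) := sum_le_sum hBcard
    _ = F.card * ((Real.exp 1 * t / m / k) ^ m * (k : ℝ) ^ Fintype.card Γ) := by
        rw [sum_const, nsmul_eq_mul]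
    _ ≤ (Real.exp 1 * Fintype.card Γ / m) ^ m *
        ((Real.exp 1 * t / m / k) ^ m * (k : ℝ) ^ Fintype.card Γ) :=
        mul_le_mul_of_nonneg_right hFcard (by positivity)
    _ = (Real.exp 1 * Real.exp 1 * (Fintype.card Γ * t / ((m : ℝ) ^ 2 * k))) ^ m *
        (k : ℝ) ^ Fintype.card Γ := by
        rw [← mul_assoc, ← mul_pow]
        congr 2
        field_simp
    _ ≤ (8 * Fintype.card Γ * t / ((m : ℝ) ^ 2 * k)) ^ m * (k : ℝ) ^ Fintype.card Γ := by
        apply mul_le_mul_of_nonneg_right _ (by positivity)
        apply pow_le_pow_left₀ (by positivity)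
        have h5 : 8 * (Fintype.card Γ : ℝ) * t / ((m : ℝ) ^ 2 * k) =
            8 * (Fintype.card Γ * t / ((m : ℝ) ^ 2 * k)) := by ring
        rw [h5]
        exact mul_le_mul_of_nonneg_right exp_sq_le (by positivity)

variable (val : (V → Fin k) → Γ → Fin k) (hval : ∀ x v, val x v = x (Y.pos (val x) v))

include hval in
/-- **The bound for random inputs**: few inputs are such that at most `t` variables are read, and
there are at some time `m` independent live nodes. -/
theorem random_bound2 [Fintype V] (t m : ℕ) (hk : 1 ≤ k) (hm : 1 ≤ m)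
    (L : (V → Fin k) → List P.State)
    (R : (V → Fin k) → Bool) (hLR : ∀ x, P.IsPath x P.start (L x) (R x))
    (A : Finset (V → Fin k))
    (hA : ∀ x ∈ A, (asked P (P.start :: L x)).card ≤ t ∧
      ∃ q l, q :: l <:+ P.start :: L x ∧ Y.Crowded P (val x) m (q :: l)) :
    (A.card : ℝ) ≤ (P.size * (8 * Fintype.card Γ * t / ((m : ℝ) ^ 2 * k)) ^ m) *
      Fintype.card (V → Fin k) := by
  classical
  refine Y.transfer val hval A _ ?_ hk
  intro g B hB
  set ρ : ℝ := 8 * Fintype.card Γ * t / ((m : ℝ) ^ 2 * k) with hρ
  set K : ℝ := (k : ℝ) ^ Fintype.card Γ with hK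
  set B1 : P.State → Finset (Γ → Fin k) := fun q =>
    B.filter (fun z => ∃ l, q :: l <:+ P.start :: L (Y.inp g z) ∧ Y.Crowded P z m (q :: l))
    with hB1
  have hpath : ∀ (x : V → Fin k) (r : Bool) (l : List P.State) (q q' : P.State)
      (l' : List P.State), P.IsPath x q l r → q' :: l' <:+ q :: l → P.IsPath x q' l' r := by
    intro x r l
    induction l with
    | nil =>
      intro q q' l' hp hs
      have h1 : q' :: l' = [q] := by
        rcases List.suffix_cons_iff.1 hs with h | h
        · exact h
        · rw [List.suffix_nil] at h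
          cases h
      cases h1
      exact hp
    | cons q1 l ih =>
      intro q q' l' hp hs
      rcases List.suffix_cons_iff.1 hs with h | h
      · cases h
        exact hp
      · exact ih q1 q' l' hp.2 h
  have hask : ∀ (l l' : List P.State), l <:+ l' → (asked P l).card ≤ (asked P l').card := by
    intro l l' hs
    apply card_le_card
    intro w hw
    simp only [asked, List.mem_toFinset, List.mem_map] at hw ⊢
    obtain ⟨q, hq, rfl⟩ := hw
    exact ⟨q, hs.subset hq, rfl⟩
  have hcov : B ⊆ univ.biUnion B1 := by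
    intro z hz
    obtain ⟨h1, h2⟩ := hA _ (hB z hz)
    rw [Y.val_inp val hval] at h2
    obtain ⟨q, l, hs, h2⟩ := h2
    exact mem_biUnion.2 ⟨q, mem_univ _, mem_filter.2 ⟨hz, l, hs, h2⟩⟩
  have b1 : ∀ q, ((B1 q).card : ℝ) ≤ ρ ^ m * K := by
    intro q
    refine Y.union_bound2 P g t q m hk hm (B1 q) ?_
    intro z hz
    obtain ⟨hzB, l, hs, h1⟩ := mem_filter.1 hz
    exact ⟨l, R (Y.inp g z), hpath _ _ _ _ _ _ (hLR _) hs,
      (hask _ _ hs).trans (hA _ (hB z hzB)).1, h1⟩
  calc (B.card : ℝ) ≤ ((univ.biUnion B1).card : ℝ) := by exact_mod_cast card_le_card hcov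
    _ ≤ ((∑ q, (B1 q).card : ℕ) : ℝ) := by
        have : (univ.biUnion B1).card ≤ ∑ q, (B1 q).card := card_biUnion_le
        exact_mod_cast this
    _ ≤ ∑ _q : P.State, ρ ^ m * K := by
        push_cast
        exact sum_le_sum fun q _ => b1 q
    _ = (P.size * ρ ^ m) * K := by
        rw [sum_const, nsmul_eq_mul, card_univ]
        unfold DBP.size
        ring

/-- **The law for the parity of the values of several outputs.** -/
theorem law_xor [Fintype V] {J : Type} [Fintype J] (out : J → Γ)
    (hout : Function.Injective out) (htop : ∀ j v, out j ∉ Y.kid v)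
    (m t : ℕ) (γ : ℝ) (hk : Even k) (hk1 : 1 ≤ k) (hm : 1 ≤ m) (P : DBP V k)
    (val : (V → Fin k) → Γ → Fin k)
    (hval : ∀ x v, val x v = x (Y.pos (val x) v))
    (f : (V → Fin k) → Bool)
    (hf : ∀ x, f x = decide ((univ.filter (fun j : J => bit (val x (out j)) = true)).card % 2 = 1))
    (hno : ∀ z (l : List P.State), (∀ j, ∃ q' ∈ l, P.query q' = Y.pos z (out j)) →
      ∃ q' l', q' :: l' <:+ l ∧ Y.Crowded P z m (q' :: l'))
    (T M : (V → Fin k) → ℕ) (R : (V → Fin k) → Bool)
    (hrun : ∀ x, P.Run x (T x) (M x) (R x))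
    (hfail : P.size * (8 * Fintype.card Γ * t / ((m : ℝ) ^ 2 * k)) ^ m ≤ γ)
    (hag : (1 / 2 + γ) * Fintype.card (V → Fin k) ≤
      (univ.filter (fun x => R x = f x)).card) :
    γ * Fintype.card (V → Fin k) ≤ (univ.filter (fun x => t < M x)).card := by
  classical
  choose L hLR hLT hLM using hrun
  set I := Fintype.card (V → Fin k) with hI
  -- the outputs which are not evaluated
  set Jn : (V → Fin k) → Finset J := fun x => univ.filter (fun j =>
    ∀ q' ∈ P.start :: L x, P.query q' ≠ Y.pos (val x) (out j)) with hJn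
  set E := univ.filter (fun x : V → Fin k => (Jn x).Nonempty) with hE
  have hposupd : ∀ (x : V → Fin k) (j : J) (y : Fin k) (v : Γ),
      Y.pos (Function.update (val x) (out j) y) v = Y.pos (val x) v := by
    intro x j y v
    refine Y.pos_congr _ _ v ?_
    intro c hc
    rw [Function.update_of_ne]
    rintro rfl
    exact htop j v hc
  have hhalf : 2 * (E.filter (fun x => R x = f x)).card ≤ E.card := by
    rcases isEmpty_or_nonempty J with hJ | hJ
    · have hE0 : E = ∅ := by
        rw [hE, filter_eq_empty_iff]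
        rintro x - ⟨j, -⟩
        exact hJ.elim j
      rw [hE0]
      simp
    obtain ⟨j₀⟩ := hJ
    set ch : Finset J → J := fun s => if h : s.Nonempty then h.choose else j₀ with hchd
    have hch : ∀ s : Finset J, s.Nonempty → ch s ∈ s := by
      intro s hs
      rw [hchd]
      simp only
      rw [dif_pos hs]
      exact hs.choose_spec
    set φ : (V → Fin k) → (V → Fin k) := fun x =>
      Function.update x (Y.pos (val x) (out (ch (Jn x))))
        (flip hk (x (Y.pos (val x) (out (ch (Jn x)))))) with hφ
    have hφval : ∀ x, val (φ x) = Function.update (val x) (out (ch (Jn x)))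
        (flip hk (x (Y.pos (val x) (out (ch (Jn x)))))) :=
      fun x => (Y.val_update val (out (ch (Jn x))) (htop _) x _ hval).1
    have hφpos : ∀ x v, Y.pos (val (φ x)) v = Y.pos (val x) v := by
      intro x v
      rw [hφval x]
      exact hposupd x _ _ v
    have hφpath : ∀ x ∈ E, L (φ x) = L x ∧ R (φ x) = R x := by
      intro x hx
      have h0 := hch (Jn x) (mem_filter.1 hx).2
      have h1 : P.IsPath (φ x) P.start (L x) (R x) := by
        refine path_congr P (L x) P.start ?_ (hLR x)
        intro q' hq'
        rw [hφ]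
        simp only
        rw [Function.update_of_ne ((mem_filter.1 h0).2 q' hq')]
      exact path_unique P _ _ _ (hLR _) h1
    have hφJ : ∀ x ∈ E, Jn (φ x) = Jn x := by
      intro x hx
      rw [hJn]
      simp only
      rw [(hφpath x hx).1]
      apply filter_congr
      intro j _
      simp only [hφpos]
    refine half E R f φ ?_ ?_ (fun x hx => (hφpath x hx).2) ?_
    · intro x hx
      rw [hE, mem_filter]
      refine ⟨mem_univ _, ?_⟩
      rw [hφJ x hx]
      exact (mem_filter.1 hx).2
    · intro x hx
      change Function.update (φ x) (Y.pos (val (φ x)) (out (ch (Jn (φ x)))))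
        (flip hk (φ x (Y.pos (val (φ x)) (out (ch (Jn (φ x))))))) = x
      rw [hφJ x hx, hφpos]
      have h1 : φ x (Y.pos (val x) (out (ch (Jn x)))) =
          flip hk (x (Y.pos (val x) (out (ch (Jn x))))) := by
        rw [hφ]
        simp only [Function.update_self]
      rw [h1, Pool.Agent.W997.TS.flip_flip]
      change Function.update (Function.update x (Y.pos (val x) (out (ch (Jn x)))) _)
        (Y.pos (val x) (out (ch (Jn x)))) (x (Y.pos (val x) (out (ch (Jn x))))) = x
      rw [Function.update_idem, Function.update_eq_self]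
    · intro x hx
      rw [hf, hf]
      set j := ch (Jn x) with hj
      have hsame : ∀ j', j' ≠ j → val (φ x) (out j') = val x (out j') := by
        intro j' hj'
        rw [hφval, Function.update_of_ne]
        intro h
        exact hj' (hout h)
      have hdiff : bit (val (φ x) (out j)) = !bit (val x (out j)) := by
        rw [hφval, Function.update_self, bit_flip, hval x (out j)]
      by_cases hb : bit (val x (out j)) = true
      · have h2 : (univ.filter (fun j' : J => bit (val (φ x) (out j')) = true)) =
            (univ.filter (fun j' : J => bit (val x (out j')) = true)).erase j := by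
          ext j'
          rw [mem_filter, mem_erase, mem_filter]
          by_cases hjj : j' = j
          · subst hjj
            rw [hdiff, hb]
            simp
          · rw [hsame j' hjj]
            simp [hjj]
        have hmem : j ∈ univ.filter (fun j' : J => bit (val x (out j')) = true) :=
          mem_filter.2 ⟨mem_univ _, hb⟩
        rw [h2, card_erase_of_mem hmem]
        have hpos : 0 < (univ.filter (fun j' : J => bit (val x (out j')) = true)).card :=
          card_pos.2 ⟨_, hmem⟩
        by_cases hc : (univ.filter (fun j' : J => bit (val x (out j')) = true)).card % 2 = 1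
        · rw [decide_eq_true hc, decide_eq_false (by omega)]
          rfl
        · rw [decide_eq_false hc, decide_eq_true (by omega)]
          rfl
      · have h2 : (univ.filter (fun j' : J => bit (val (φ x) (out j')) = true)) =
            insert j (univ.filter (fun j' : J => bit (val x (out j')) = true)) := by
          ext j'
          rw [mem_filter, mem_insert, mem_filter]
          by_cases hjj : j' = j
          · subst hjj
            rw [hdiff]
            simp [hb]
          · rw [hsame j' hjj]
            simp [hjj]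
        have hmem : j ∉ univ.filter (fun j' : J => bit (val x (out j')) = true) := by
          intro h
          exact hb (mem_filter.1 h).2
        rw [h2, card_insert_of_notMem hmem]
        by_cases hc : (univ.filter (fun j' : J => bit (val x (out j')) = true)).card % 2 = 1
        · rw [decide_eq_true hc, decide_eq_false (by omega)]
          rfl
        · rw [decide_eq_false hc, decide_eq_true (by omega)]
          rfl
  -- the bad inputs
  set B := univ.filter (fun x : V → Fin k =>
    (asked P (P.start :: L x)).card ≤ t ∧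
      ∃ q' l', q' :: l' <:+ P.start :: L x ∧ Y.Crowded P (val x) m (q' :: l')) with hB
  have hBb : (B.card : ℝ) ≤ γ * I := by
    refine (Y.random_bound2 P val hval t m hk1 hm L R hLR B
      (fun x hx => (mem_filter.1 hx).2)).trans ?_
    exact mul_le_mul_of_nonneg_right hfail (by positivity)
  have hcov : I ≤ E.card + B.card + (univ.filter (fun x => t < M x)).card := by
    rw [hI, ← card_univ]
    refine (card_le_card (?_ : (univ : Finset (V → Fin k)) ⊆ (E ∪ B) ∪
      univ.filter (fun x => t < M x))).trans
      ((card_union_le _ _).trans (Nat.add_le_add (card_union_le _ _) le_rfl))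
    intro x _
    by_cases h1 : x ∈ E
    · exact mem_union_left _ (mem_union_left _ h1)
    by_cases h2 : x ∈ B
    · exact mem_union_left _ (mem_union_right _ h2)
    apply mem_union_right
    rw [mem_filter]
    refine ⟨mem_univ _, ?_⟩
    by_contra h3
    push Not at h3
    apply h2
    rw [hB, mem_filter]
    refine ⟨mem_univ _, ?_, ?_⟩
    · have h4 := hLM x
      unfold asked
      rw [h4]
      exact h3
    · apply hno
      intro j
      by_contra h5
      push Not at h5
      apply h1
      rw [hE, mem_filter]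
      exact ⟨mem_univ _, j, mem_filter.2 ⟨mem_univ _, h5⟩⟩
  have hcorr : (univ.filter (fun x => R x = f x)).card ≤
      (E.filter (fun x => R x = f x)).card + (I - E.card) := by
    have h1 : univ.filter (fun x => R x = f x) ⊆
        E.filter (fun x => R x = f x) ∪ Eᶜ := by
      intro x hx
      by_cases h2 : x ∈ E
      · exact mem_union_left _ (mem_filter.2 ⟨h2, (mem_filter.1 hx).2⟩)
      · exact mem_union_right _ (mem_compl.2 h2)
    refine (card_le_card h1).trans ((card_union_le _ _).trans ?_)
    rw [card_compl]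
  have hEI : E.card ≤ I := by
    rw [hI, ← card_univ]
    exact card_le_univ E
  have h1 : (univ.filter (fun x => R x = f x)).card * 2 + E.card ≤ 2 * I := by omega
  have h2 : ((univ.filter (fun x => R x = f x)).card : ℝ) * 2 + E.card ≤ 2 * I := by
    exact_mod_cast h1
  have h3 : (E.card : ℝ) ≤ (1 - 2 * γ) * I := by linarith
  have h4 : (I : ℝ) ≤ E.card + B.card + (univ.filter (fun x => t < M x)).card := by
    exact_mod_cast hcov
  linarith

/-- The law with the average. -/
theorem law_xor_avg [Fintype V] {J : Type} [Fintype J] (out : J → Γ)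
    (hout : Function.Injective out) (htop : ∀ j v, out j ∉ Y.kid v)
    (m t : ℕ) (γ : ℝ) (hk : Even k) (hk1 : 1 ≤ k) (hm : 1 ≤ m) (P : DBP V k)
    (val : (V → Fin k) → Γ → Fin k)
    (hval : ∀ x v, val x v = x (Y.pos (val x) v))
    (f : (V → Fin k) → Bool)
    (hf : ∀ x, f x = decide ((univ.filter (fun j : J => bit (val x (out j)) = true)).card % 2 = 1))
    (hno : ∀ z (l : List P.State), (∀ j, ∃ q' ∈ l, P.query q' = Y.pos z (out j)) →
      ∃ q' l', q' :: l' <:+ l ∧ Y.Crowded P z m (q' :: l'))
    (T M : (V → Fin k) → ℕ) (R : (V → Fin k) → Bool)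
    (hrun : ∀ x, P.Run x (T x) (M x) (R x))
    (hfail : P.size * (8 * Fintype.card Γ * t / ((m : ℝ) ^ 2 * k)) ^ m ≤ γ)
    (hag : (1 / 2 + γ) * Fintype.card (V → Fin k) ≤
      (univ.filter (fun x => R x = f x)).card) :
    γ * (t + 1) * Fintype.card (V → Fin k) ≤ ∑ x, (M x : ℝ) := by
  have h1 := Y.law_xor out hout htop m t γ hk hk1 hm P val hval f hf hno T M R hrun hfail hag
  have h3 : (univ.filter (fun x => t < M x)).card * (t + 1) ≤ ∑ x, M x := by
    calc (univ.filter (fun x => t < M x)).card * (t + 1)
        = ∑ _x ∈ univ.filter (fun x => t < M x), (t + 1) := by rw [sum_const, smul_eq_mul]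
      _ ≤ ∑ x ∈ univ.filter (fun x => t < M x), M x := by
          apply sum_le_sum
          intro x hx
          exact (mem_filter.1 hx).2
      _ ≤ ∑ x, M x := sum_le_sum_of_subset (filter_subset _ _)
  have h4 : ((univ.filter (fun x => t < M x)).card : ℝ) * ((t : ℝ) + 1) ≤ ∑ x, (M x : ℝ) := by
    exact_mod_cast h3
  calc γ * (t + 1) * Fintype.card (V → Fin k) = γ * Fintype.card (V → Fin k) * (t + 1) := by ring
    _ ≤ (univ.filter (fun x => t < M x)).card * ((t : ℝ) + 1) :=
        mul_le_mul_of_nonneg_right h1 (by positivity)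
    _ ≤ _ := h4

end Net

end Pool.Agent.W997.SR
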