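import Pool.Agent.W997.NL.Defs

/-!
# Statements on pebbling (project NL)
-/

set_option autoImplicit false

namespace Pool.Agent.W997.NL

open Finset
open Pool.Agent.W997.SR (Dag)

/-- A legal sequence of configurations: a node can get a pebble only if all its children carry
pebbles. -/
def Legal (G : Dag) (C : ℕ → Finset G.Γ) : Prop :=
  ∀ t, ∀ v ∈ C (t + 1), v ∉ C t → G.kid v ⊆ C t

open Classical in
/-- The number of the `j` such that the node `f j` gets a pebble in one of the steps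
`a → a + 1, …, b - 1 → b`. -/
noncomputable def placed {I Γ : Type} [Fintype I] (C : ℕ → Finset Γ) (a b : ℕ) (f : I → Γ) : ℕ :=
  (univ.filter (fun j => ∃ t, a ≤ t ∧ t < b ∧ f j ∉ C t ∧ f j ∈ C (t + 1))).card

/-- The property of superconcentrators: if more outputs get pebbles than there were pebbles at the
start, then almost all inputs get pebbles. -/
def SCProp {I : Type} [Fintype I] (S : IOG I) : Prop :=
  ∀ C : ℕ → Finset S.G.Γ, Legal S.G C → ∀ a b, (C a).card < placed C a b S.out →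
    Fintype.card I ≤ placed C a b S.inp + (C a).card

/-- If `17 u` outputs get pebbles, starting with at most `2 u` pebbles, then there is an open
interval of time in which there are always at least `u` pebbles, and `38 u` inputs get pebbles. -/
def Q {I : Type} [Fintype I] (G : IOG I) (u : ℕ) : Prop :=
  ∀ C : ℕ → Finset G.G.Γ, Legal G.G C → ∀ a b, a ≤ b → (C a).card ≤ 2 * u →
    17 * u ≤ placed C a b G.out →
    ∃ a' b', a ≤ a' ∧ a' ≤ b' ∧ b' ≤ b ∧ (∀ t, a' < t → t < b' → u ≤ (C t).card) ∧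
      38 * u ≤ placed C a' b' G.inp

/-- Every output has the corresponding input as a child. -/
def Direct {I : Type} (G : IOG I) : Prop := ∀ j, G.inp j ∈ G.G.kid (G.out j)

def S_SHIFT : Prop := ∀ r : ℕ, SCProp (shift r)

def S_BASE : Prop := ∀ (I : Type) [Fintype I] [DecidableEq I] (S : IOG I), SCProp S →
  Fintype.card I = 64 → Q (base S) 1

/-- The part of the configurations in the first copy. -/
def sub1 {I : Type} [Fintype I] [DecidableEq I] (S G : IOG I)
    (C : ℕ → Finset (Cell I S.G.Γ G.G.Γ)) (t : ℕ) : Finset G.G.Γ :=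
  univ.filter (fun v => Cell.g1 v ∈ C t)

/-- The part of the configurations in the second copy. -/
def sub2 {I : Type} [Fintype I] [DecidableEq I] (S G : IOG I)
    (C : ℕ → Finset (Cell I S.G.Γ G.G.Γ)) (t : ℕ) : Finset G.G.Γ :=
  univ.filter (fun v => Cell.g2 v ∈ C t)

/-- The chain of estimates in the composite graph. -/
def S_CHAIN : Prop := ∀ (I : Type) [Fintype I] [DecidableEq I] (S G : IOG I), SCProp S →
  Direct G → ∀ C : ℕ → Finset (Cell I S.G.Γ G.G.Γ), Legal (comp S G).G C →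
  Legal G.G (sub1 S G C) ∧ Legal G.G (sub2 S G C) ∧
  (∀ t, (sub1 S G C t).card + (sub2 S G C t).card ≤ (C t).card) ∧
  ∀ a b,
    (4 * (C a).card < placed C a b (comp S G).out →
      Fintype.card I ≤ placed (sub2 S G C) a b G.out + 2 * (C a).card) ∧
    placed (sub2 S G C) a b G.out ≤ placed (sub2 S G C) a b G.inp + (C a).card ∧
    placed (sub2 S G C) a b G.inp ≤ placed (sub1 S G C) a b G.out + (sub1 S G C a).card ∧
    placed (sub1 S G C) a b G.out ≤ placed (sub1 S G C) a b G.inp + (C a).card ∧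
    (2 * (C a).card < placed (sub1 S G C) a b G.inp →
      2 * Fintype.card I ≤ placed C a b (comp S G).inp + 3 * (C a).card)

def S_COMP : Prop := S_CHAIN →  ∀ (I : Type) [Fintype I] [DecidableEq I] (S G : IOG I) (u : ℕ), SCProp S →
  Direct G → Q G u → Fintype.card I = 64 * u → 1 ≤ u → Q (comp S G) (2 * u)

def S_DEG : Prop := (∀ r, (shift r).G.DegLe 2) ∧
  (∀ (I : Type) [Fintype I] [DecidableEq I] (S : IOG I), S.G.DegLe 2 → (base S).G.DegLe 2) ∧
  (∀ (I : Type) [Fintype I] [DecidableEq I] (S G : IOG I), S.G.DegLe 2 → G.G.DegLe 2 →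
    (comp S G).G.DegLe 2)

def S_CARD : Prop := ∀ i : ℕ, Fintype.card (fam i).G.Γ + 33 * 2 ^ (6 + i) =
  ((6 + i) ^ 2 + 2 * (6 + i)) * 2 ^ (6 + i)

/-- The numerical part. -/
def S_NUM : Prop := ∀ A : ℕ, 1 ≤ A → ∃ i₀ : ℕ, ∀ i l n R : ℕ, i₀ ≤ i → R = 6 + i →
  R ^ A ≤ 2 ^ l → 2 ^ l ≤ 2 * R ^ A → n + 33 * 2 ^ R = (R ^ 2 + 2 * R) * 2 ^ R →
  ∀ N : ℝ, N = n * 2 ^ l →
    3 ≤ i ∧
    n * l * Real.log 2 + Real.log n ≤ N / Real.log N ^ (A - 1) ∧
    (n : ℝ) ≤ N / Real.log N ^ A ∧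
    N / Real.log N ^ (A + 3) ≤ 2 ^ (i - 3) * Real.log 2 ∧
    1 ≤ 1 / Real.log N * (2 : ℝ) ^ (2 ^ (i - 3)) ∧
    N / Real.log N ^ 6 ≤ 1 / Real.log N * (N / (2 ^ 23 * R ^ 4 * 4)) ∧
    40 * (l : ℝ) ^ 2 * n * 4 ^ l ≤ N * Real.log N ^ (A + 1)

end Pool.Agent.W997.NL
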